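import Pool.Agent.Run7.h35.EX.Stm

/-! Project EX, piece CROSS -/

set_option autoImplicit false
open scoped BigOperators

namespace Run7.h811.EX

open Run7.h35.EX

noncomputable section

theorem av_add {T : Type} [Fintype T] (f g : T → ℝ) :
    av (fun t => f t + g t) = av f + av g := by
  unfold av; rw [Finset.sum_add_distrib, add_div]

theorem av_mul {T : Type} [Fintype T] (c : ℝ) (f : T → ℝ) :
    av (fun t => c * f t) = c * av f := by
  unfold av; rw [← Finset.mul_sum, mul_div_assoc]

theorem av_mono {T : Type} [Fintype T] {f g : T → ℝ} (h : ∀ t, f t ≤ g t) : av f ≤ av g := by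
  unfold av
  exact div_le_div_of_nonneg_right (Finset.sum_le_sum fun t _ => h t) (Nat.cast_nonneg _)

theorem av_comm {T T' : Type} [Fintype T] [Fintype T'] (f : T → T' → ℝ) :
    (av fun t => av fun t' => f t t') = av fun t' => av fun t => f t t' := by
  unfold av
  rw [← Finset.sum_div, ← Finset.sum_div, Finset.sum_comm, div_right_comm]

theorem av_shift {V : Type} [Fintype V] [AddCommGroup V] (f : V → ℝ) (v : V) :
    av (fun x => f (x + v)) = av f := by
  unfold av
  exact congrArg (fun z => z / (Fintype.card V : ℝ)) (Equiv.sum_comp (Equiv.addRight v) f)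

theorem sq3 (x y z : ℝ) :
    Real.sqrt |x + y + z| ≤ Real.sqrt |x| + Real.sqrt |y| + Real.sqrt |z| := by
  have h1 := Real.sqrt_nonneg |x|
  have h2 := Real.sqrt_nonneg |y|
  have h3 := Real.sqrt_nonneg |z|
  refine Real.sqrt_le_iff.2 ⟨by positivity, ?_⟩
  have e1 := Real.sq_sqrt (abs_nonneg x)
  have e2 := Real.sq_sqrt (abs_nonneg y)
  have e3 := Real.sq_sqrt (abs_nonneg z)
  have e4 : |x + y + z| ≤ |x| + |y| + |z| := by
    have := abs_add_le (x + y) z
    have := abs_add_le x y
    linarith
  nlinarith [mul_nonneg h1 h2, mul_nonneg h1 h3, mul_nonneg h2 h3]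

theorem t_CROSS : S_CROSS := by
  intro V ι _ _ _ _ s ε t hε ht a hA h1 h2 h3
  have ψ0 : ∀ x, 0 ≤ psi a x := by
    intro x
    unfold psi av
    exact div_nonneg (Finset.sum_nonneg fun _ _ => Real.sqrt_nonneg _) (Nat.cast_nonneg _)
  have hb : ∀ x j, Real.sqrt |breg t a x j| ≤ t * psi a x := by
    intro x j
    have h0 : 0 ≤ t * psi a x := mul_nonneg ht.le (ψ0 x)
    refine Real.sqrt_le_iff.2 ⟨h0, ?_⟩
    unfold breg
    split_ifs with h
    · exact h
    · rw [abs_zero]; positivity
  have hc : ∀ x j, Real.sqrt |csing t a x j| ≤ Real.sqrt |a x j| := by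
    intro x j
    refine Real.sqrt_le_sqrt ?_
    unfold csing breg
    split_ifs with h
    · rw [sub_self, abs_zero]; positivity
    · rw [sub_zero]
  have hz : ∀ x j, Real.sqrt |breg t a x j| * Real.sqrt |csing t a x j| = 0 := by
    intro x j
    unfold csing breg
    split_ifs with h
    · rw [sub_self, abs_zero, Real.sqrt_zero, mul_zero]
    · rw [abs_zero, Real.sqrt_zero, zero_mul]
  have hAs : ∀ x i, |a (x + s i) i| = |a x i| := by
    intro x i; rw [hA x i, abs_neg]
  have key : ∀ x i j, Real.sqrt |UU s t a x i j| * Real.sqrt |WW s t a x i j| ≤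
      Real.sqrt |a x i| * Real.sqrt |a (x + s j) i| +
      (Real.sqrt |a x i| * Real.sqrt |csing t a x j| +
      (Real.sqrt |a (x + s i) i| * Real.sqrt |csing t a (x + s i) j| +
      (t * (psi a x * Real.sqrt |a (x + s j) i|) +
      (t * (psi a x * Real.sqrt |a (x + s i) j|) +
      (t * (psi a (x + s i) * Real.sqrt |a (x + s i + s j) i|) +
      t * (psi a (x + s i) * Real.sqrt |a x j|)))))) := by
    intro x i j
    have u := sq3 (a x i) (-breg t a x j) (breg t a (x + s i) j)
    have w := sq3 (a (x + s j) i) (csing t a x j) (-csing t a (x + s i) j)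
    rw [abs_neg] at u w
    have eU : a x i + -breg t a x j + breg t a (x + s i) j = UU s t a x i j := by
      unfold UU; ring
    have eW : a (x + s j) i + csing t a x j + -csing t a (x + s i) j = WW s t a x i j := by
      unfold WW; ring
    rw [eU] at u
    rw [eW] at w
    have hprod := mul_le_mul u w (Real.sqrt_nonneg _) (by positivity)
    have z1 := hz x j
    have z2 := hz (x + s i) j
    have b1 := hb x j
    have b2 := hb (x + s i) j
    have c1 := hc x j
    have c2 := hc (x + s i) j
    have e1 : |a (x + s i + s j) i| = |a (x + s j) i| := by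
      rw [add_right_comm, hAs]
    rw [e1, hAs x i]
    have n1 := Real.sqrt_nonneg |a (x + s j) i|
    have n2 := Real.sqrt_nonneg |a (x + s i) j|
    have n3 := Real.sqrt_nonneg |a x j|
    have p1 := mul_le_mul b1 (le_refl (Real.sqrt |a (x + s j) i|)) n1
      (mul_nonneg ht.le (ψ0 x))
    have p2 := mul_le_mul b1 c2 (Real.sqrt_nonneg _) (mul_nonneg ht.le (ψ0 x))
    have p3 := mul_le_mul b2 (le_refl (Real.sqrt |a (x + s j) i|)) n1
      (mul_nonneg ht.le (ψ0 (x + s i)))
    have p4 := mul_le_mul b2 c1 (Real.sqrt_nonneg _) (mul_nonneg ht.le (ψ0 (x + s i)))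
    nlinarith
  have hsum : (av fun x => av fun i => av fun j =>
        Real.sqrt |UU s t a x i j| * Real.sqrt |WW s t a x i j|) ≤
      (av fun x => av fun i => av fun j => Real.sqrt |a x i| * Real.sqrt |a (x + s j) i|) +
      ((av fun x => av fun i => av fun j => Real.sqrt |a x i| * Real.sqrt |csing t a x j|) +
      ((av fun x => av fun i => av fun j =>
        Real.sqrt |a (x + s i) i| * Real.sqrt |csing t a (x + s i) j|) +
      ((av fun x => av fun i => av fun j => t * (psi a x * Real.sqrt |a (x + s j) i|)) +
      ((av fun x => av fun i => av fun j => t * (psi a x * Real.sqrt |a (x + s i) j|)) +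
      ((av fun x => av fun i => av fun j =>
        t * (psi a (x + s i) * Real.sqrt |a (x + s i + s j) i|)) +
      (av fun x => av fun i => av fun j => t * (psi a (x + s i) * Real.sqrt |a x j|))))))) := by
    simp only [← av_add]
    exact av_mono fun x => av_mono fun i => av_mono fun j => key x i j
  -- the averages
  have psi_eq : ∀ x, (av fun i => Real.sqrt |a x i|) = psi a x := fun x => rfl
  have mul_r : ∀ (T : Type) [Fintype T] (f : T → ℝ) (c : ℝ), av (fun t => f t * c) = av f * c := by
    intro T _ f c
    simp only [mul_comm _ c]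
    exact av_mul c f
  have F2 : (av fun x => av fun i => av fun j => Real.sqrt |a x i| * Real.sqrt |csing t a x j|)
      ≤ 1 / t := by
    simp only [av_mul, mul_r, psi_eq]
    exact h3
  have F3 : (av fun x => av fun i => av fun j =>
        Real.sqrt |a (x + s i) i| * Real.sqrt |csing t a (x + s i) j|) ≤ 1 / t := by
    rw [av_comm]
    have e : ∀ i, (av fun x => av fun j =>
        Real.sqrt |a (x + s i) i| * Real.sqrt |csing t a (x + s i) j|) =
        av fun x => av fun j => Real.sqrt |a x i| * Real.sqrt |csing t a x j| := fun i =>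
      av_shift (fun x => av fun j => Real.sqrt |a x i| * Real.sqrt |csing t a x j|) (s i)
    simp only [e]
    rw [av_comm]
    exact F2
  have G4 : (av fun x => av fun i => av fun j => psi a x * Real.sqrt |a (x + s j) i|) ≤ ε := by
    have e : ∀ x, (av fun i => av fun j => psi a x * Real.sqrt |a (x + s j) i|) =
        av fun j => psi a x * psi a (x + s j) := by
      intro x
      rw [av_comm]
      simp only [av_mul, psi_eq]
    simp only [e]
    exact h2
  have F4 : (av fun x => av fun i => av fun j => t * (psi a x * Real.sqrt |a (x + s j) i|)) ≤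
      t * ε := by
    simp only [av_mul] at G4 ⊢
    exact mul_le_mul_of_nonneg_left G4 ht.le
  have F6 : (av fun x => av fun i => av fun j => t * (psi a x * Real.sqrt |a (x + s i) j|)) ≤
      t * ε := by
    simp only [av_mul, psi_eq] at h2 ⊢
    exact mul_le_mul_of_nonneg_left h2 ht.le
  have F7 : (av fun x => av fun i => av fun j =>
        t * (psi a (x + s i) * Real.sqrt |a (x + s i + s j) i|)) ≤ t * ε := by
    rw [av_comm]
    have e : ∀ i, (av fun x => av fun j =>
        t * (psi a (x + s i) * Real.sqrt |a (x + s i + s j) i|)) =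
        av fun x => av fun j => t * (psi a x * Real.sqrt |a (x + s j) i|) := fun i =>
      av_shift (fun x => av fun j => t * (psi a x * Real.sqrt |a (x + s j) i|)) (s i)
    simp only [e]
    rw [av_comm]
    exact F4
  have F8 : (av fun x => av fun i => av fun j => t * (psi a (x + s i) * Real.sqrt |a x j|)) ≤
      t * ε := by
    have e : ∀ x i, (av fun j => t * (psi a (x + s i) * Real.sqrt |a x j|)) =
        t * (psi a x * psi a (x + s i)) := by
      intro x i
      rw [av_mul, av_mul, psi_eq, mul_comm (psi a x)]
    simp only [e]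
    rw [show (av fun x => av fun i => t * (psi a x * psi a (x + s i))) =
      t * av fun x => av fun i => psi a x * psi a (x + s i) by
        simp only [av_mul]]
    exact mul_le_mul_of_nonneg_left h2 ht.le
  have : (1 : ℝ) / t + 1 / t = 2 / t := by ring
  linarith

end

end Run7.h811.EX
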